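import Pool.Agent.X125.NR.Conv
import Pool.Agent.X125.NR.NonReg

/-!
# Non-regular operators commuting with translations need not exist

`G = ℤ × ℤ` (discrete, abelian, hence amenable) and `E = ℓ²(ℤ; ℓ¹(ℤ))`, with the norm
`(∑_i (∑_j |f(i,j)|)²)^{1/2}`. The band of functions supported in `ℤ × {0}` is `ℓ²(ℤ)`, so `E` has
bounded non-regular operators. If `T` commutes with the translations and `φ = T δ_0`, test `T` on
`∑_{j ≤ N} δ_{(j, t_j)}` with very sparse `t_j`: in the `ℓ¹` direction the translates do not overlap,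
so `‖|φ| * 1_{[0,N]}‖ ≤ ‖T‖ ‖1_{[0,N]}‖` in `ℓ²`, which gives `φ ∈ ℓ¹(ℤ × ℤ)` with
`‖φ‖₁ ≤ ‖T‖`. Hence `T` is the convolution with `φ ∈ ℓ¹` and is regular.

Files: `Pool/Agent/X125/NR/*`.
-/

set_option autoImplicit false

noncomputable section

namespace Pool.Agent.Results.MP_3f33d0_an.MixedNorm

/-- `E` (with the embedding `ι`) is a Banach function space on the discrete group `G`: a linear
space of functions on `G` with a complete norm, solid, with a monotone norm. -/
structure IsBFS {G E : Type} [NormedAddCommGroup E] [NormedSpace ℂ E] (ι : E →ₗ[ℂ] (G → ℂ)) :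
    Prop where
  complete : CompleteSpace E
  inj : Function.Injective ι
  solid : ∀ (f : E) (g : G → ℂ), (∀ s, ‖g s‖ ≤ ‖ι f s‖) → ∃ h : E, ι h = g ∧ ‖h‖ ≤ ‖f‖

/-- invariance under the left translations `λ_t f (s) = f (-t + s)` -/
def LeftInvariant {G E : Type} [AddGroup G] [NormedAddCommGroup E] [NormedSpace ℂ E]
    (ι : E →ₗ[ℂ] (G → ℂ)) : Prop :=
  ∀ (t : G) (f : E), ∃ h : E, ∀ s, ι h s = ι f (-t + s)

/-- invariance under the right translations `ρ_t f (s) = f (s + t)` -/
def RightInvariant {G E : Type} [AddGroup G] [NormedAddCommGroup E] [NormedSpace ℂ E]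
    (ι : E →ₗ[ℂ] (G → ℂ)) : Prop :=
  ∀ (t : G) (f : E), ∃ h : E, ∀ s, ι h s = ι f (s + t)

/-- `f ≥ 0` pointwise -/
def Nonneg {G E : Type} [NormedAddCommGroup E] [NormedSpace ℂ E] (ι : E →ₗ[ℂ] (G → ℂ)) (f : E) :
    Prop :=
  ∀ s, 0 ≤ (ι f s).re ∧ (ι f s).im = 0

/-- positive operators -/
def Positive {G E : Type} [NormedAddCommGroup E] [NormedSpace ℂ E] (ι : E →ₗ[ℂ] (G → ℂ))
    (T : E →ₗ[ℂ] E) : Prop :=
  ∀ f, Nonneg ι f → Nonneg ι (T f)

/-- regular operators: complex linear combinations of positive operators -/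
def Regular {G E : Type} [NormedAddCommGroup E] [NormedSpace ℂ E] (ι : E →ₗ[ℂ] (G → ℂ))
    (T : E →ₗ[ℂ] E) : Prop :=
  T ∈ Submodule.span ℂ {P : E →ₗ[ℂ] E | Positive ι P}

/-- `T ρ_t = ρ_t T` for all `t` -/
def CommutesWithRightTranslations {G E : Type} [AddGroup G] [NormedAddCommGroup E]
    [NormedSpace ℂ E] (ι : E →ₗ[ℂ] (G → ℂ)) (T : E →ₗ[ℂ] E) : Prop :=
  ∀ (t : G) (f h : E), (∀ s, ι h s = ι f (s + t)) → ∀ s, ι (T h) s = ι (T f) (s + t)

/-- the assertion of Q1 for one discrete group `G` -/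
def AssertionFor (G : Type) [AddGroup G] : Prop :=
  ∀ (E : Type) [NormedAddCommGroup E] [NormedSpace ℂ E] (ι : E →ₗ[ℂ] (G → ℂ)),
    IsBFS ι → LeftInvariant ι → RightInvariant ι →
    (∃ T : E →L[ℂ] E, ¬ Regular ι (T : E →ₗ[ℂ] E)) →
    ∃ T : E →L[ℂ] E, ¬ Regular ι (T : E →ₗ[ℂ] E) ∧
      CommutesWithRightTranslations ι (T : E →ₗ[ℂ] E)

open X125.NR

lemma isBFS : IsBFS iota where
  complete := inferInstance
  inj := iota_inj
  solid f g hg := by
    have h1 : ∀ i : ℤ, Memℓp (fun j : ℤ => g (i, j)) 1 := fun i =>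
      Memℓp.mono' (lp.memℓp (f i)) fun j => hg (i, j)
    let r : ℤ → R := fun i => ⟨fun j => g (i, j), h1 i⟩
    have h2 : ∀ i, ‖r i‖ ≤ ‖f i‖ := fun i => lp.norm_mono one_ne_zero fun j => hg (i, j)
    refine ⟨⟨r, Memℓp.mono' (lp.memℓp f) h2⟩, rfl, lp.norm_mono two_ne_zero h2⟩

lemma leftInv : LeftInvariant iota := fun t f =>
  ⟨tr t f, fun s => by rw [iota_tr, neg_add_eq_sub]⟩

lemma rightInv : RightInvariant iota := fun t f =>
  ⟨tr (-t) f, fun s => by rw [iota_tr, sub_neg_eq_add]⟩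

lemma norm_of_nonneg {z : ℂ} (h : 0 ≤ z.re ∧ z.im = 0) : ‖z‖ = z.re := by
  have : z = (z.re : ℂ) := Complex.ext rfl (by simp [h.2])
  rw [this, Complex.norm_real, Real.norm_eq_abs, abs_of_nonneg h.1, Complex.ofReal_re]

lemma dom_of_regular (T : E →ₗ[ℂ] E) (hT : Regular iota T) :
    ∃ Q : E →ₗ[ℂ] E, (∀ f, NN f → NN (Q f)) ∧
      ∀ f, NN f → ∀ p, ‖iota (T f) p‖ ≤ (iota (Q f) p).re := by
  unfold Regular at hT
  induction hT using Submodule.span_induction with
  | mem P hP => exact ⟨P, hP, fun f hf p => (norm_of_nonneg (hP f hf p)).le⟩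
  | zero => exact ⟨0, fun f _ p => by simp, fun f _ p => by simp⟩
  | add S T _ _ hS hT =>
    obtain ⟨Q1, h1, h1'⟩ := hS
    obtain ⟨Q2, h2, h2'⟩ := hT
    refine ⟨Q1 + Q2, fun f hf p => ?_, fun f hf p => ?_⟩
    · have a := h1 f hf p
      have b := h2 f hf p
      rw [LinearMap.add_apply, map_add, Pi.add_apply, Complex.add_re, Complex.add_im]
      exact ⟨add_nonneg a.1 b.1, by rw [a.2, b.2, add_zero]⟩
    · rw [LinearMap.add_apply, map_add, Pi.add_apply, LinearMap.add_apply, map_add, Pi.add_apply,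
        Complex.add_re]
      exact (norm_add_le _ _).trans (add_le_add (h1' f hf p) (h2' f hf p))
  | smul c T _ hT =>
    obtain ⟨Q, h1, h1'⟩ := hT
    refine ⟨((‖c‖ : ℝ) : ℂ) • Q, fun f hf p => ?_, fun f hf p => ?_⟩
    · have a := h1 f hf p
      rw [LinearMap.smul_apply, map_smul, Pi.smul_apply, smul_eq_mul, Complex.re_ofReal_mul,
        Complex.im_ofReal_mul, a.2, mul_zero]
      exact ⟨mul_nonneg (norm_nonneg _) a.1, rfl⟩
    · rw [LinearMap.smul_apply, map_smul, Pi.smul_apply, LinearMap.smul_apply, map_smul,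
        Pi.smul_apply, smul_eq_mul, smul_eq_mul, Complex.re_ofReal_mul, norm_mul]
      exact mul_le_mul_of_nonneg_left (h1' f hf p) (norm_nonneg _)

lemma T0_not_regular : ¬ Regular iota (T0 : E →ₗ[ℂ] E) := by
  intro h
  obtain ⟨Q, h1, h2⟩ := dom_of_regular _ h
  exact not_dom Q h1 h2

lemma conv_positive (ψ : ℤ × ℤ → ℝ) (hψ : ∀ s, 0 ≤ ψ s) (hs : Summable fun s => ‖(ψ s : ℂ)‖) :
    Positive iota (conv (fun s => (ψ s : ℂ)) : E →ₗ[ℂ] E) := by
  intro f hf p
  have h := iota_conv hs f p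
  have hre := Complex.hasSum_re h
  have him := Complex.hasSum_im h
  simp only [Complex.re_ofReal_mul] at hre
  simp only [Complex.im_ofReal_mul, (hf _).2, mul_zero] at him
  exact ⟨hre.nonneg fun s => mul_nonneg (hψ s) (hf _).1, him.unique hasSum_zero⟩

lemma conv_regular (φ : ℤ × ℤ → ℂ) (hφ : Summable fun s => ‖φ s‖) :
    Regular iota (conv φ : E →ₗ[ℂ] E) := by
  let ψ1 : ℤ × ℤ → ℝ := fun s => max (φ s).re 0
  let ψ2 : ℤ × ℤ → ℝ := fun s => max (-(φ s).re) 0
  let ψ3 : ℤ × ℤ → ℝ := fun s => max (φ s).im 0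
  let ψ4 : ℤ × ℤ → ℝ := fun s => max (-(φ s).im) 0
  have hb : ∀ ψ : ℤ × ℤ → ℝ, (∀ s, 0 ≤ ψ s) → (∀ s, ψ s ≤ ‖φ s‖) →
      Summable fun s => ‖(ψ s : ℂ)‖ := by
    intro ψ h0 h1
    refine Summable.of_nonneg_of_le (fun _ => norm_nonneg _) (fun s => ?_) hφ
    rw [Complex.norm_real, Real.norm_eq_abs, abs_of_nonneg (h0 s)]
    exact h1 s
  have n1 : ∀ s, 0 ≤ ψ1 s := fun s => le_max_right _ _
  have n2 : ∀ s, 0 ≤ ψ2 s := fun s => le_max_right _ _
  have n3 : ∀ s, 0 ≤ ψ3 s := fun s => le_max_right _ _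
  have n4 : ∀ s, 0 ≤ ψ4 s := fun s => le_max_right _ _
  have s1 := hb ψ1 n1 fun s => max_le (Complex.re_le_norm _) (norm_nonneg _)
  have s2 := hb ψ2 n2 fun s => max_le ((neg_le_abs _).trans (Complex.abs_re_le_norm _))
    (norm_nonneg _)
  have s3 := hb ψ3 n3 fun s => max_le ((le_abs_self _).trans (Complex.abs_im_le_norm _))
    (norm_nonneg _)
  have s4 := hb ψ4 n4 fun s => max_le ((neg_le_abs _).trans (Complex.abs_im_le_norm _))
    (norm_nonneg _)
  have hsum := ((conv_summable s1).hasSum.sub (conv_summable s2).hasSum).add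
    (((conv_summable s3).hasSum.sub (conv_summable s4).hasSum).const_smul Complex.I)
  have hdec : ∀ s, φ s = ((ψ1 s : ℂ) - (ψ2 s : ℂ))
      + Complex.I * ((ψ3 s : ℂ) - (ψ4 s : ℂ)) := by
    intro s
    apply Complex.ext
    · simp only [ψ1, ψ2, ψ3, ψ4, Complex.add_re, Complex.sub_re, Complex.ofReal_re,
        Complex.mul_re, Complex.I_re, Complex.I_im, Complex.sub_im, Complex.ofReal_im]
      rcases le_total 0 (φ s).re with h | h
      · rw [max_eq_left h, max_eq_right (by linarith)]; ring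
      · rw [max_eq_right h, max_eq_left (by linarith)]; ring
    · simp only [ψ1, ψ2, ψ3, ψ4, Complex.add_im, Complex.sub_re, Complex.ofReal_re,
        Complex.mul_im, Complex.I_re, Complex.I_im, Complex.sub_im, Complex.ofReal_im]
      rcases le_total 0 (φ s).im with h | h
      · rw [max_eq_left h, max_eq_right (by linarith)]; ring
      · rw [max_eq_right h, max_eq_left (by linarith)]; ring
  have e : conv φ = (conv (fun s => (ψ1 s : ℂ)) - conv (fun s => (ψ2 s : ℂ)))
      + Complex.I • (conv (fun s => (ψ3 s : ℂ)) - conv (fun s => (ψ4 s : ℂ))) := by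
    have hfun : (fun s => φ s • trL s) = fun b => ((ψ1 b : ℂ) • trL b - (ψ2 b : ℂ) • trL b)
        + Complex.I • ((ψ3 b : ℂ) • trL b - (ψ4 b : ℂ) • trL b) := by
      funext s
      rw [← sub_smul, ← sub_smul, smul_smul, ← add_smul]
      congr 1
      exact hdec s
    refine (conv_summable hφ).hasSum.unique ?_
    rw [hfun]
    exact hsum
  rw [e]
  unfold Regular
  refine Submodule.add_mem _ (Submodule.sub_mem _ ?_ ?_)
    (Submodule.smul_mem _ _ (Submodule.sub_mem _ ?_ ?_))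
  · exact Submodule.subset_span (conv_positive ψ1 n1 s1)
  · exact Submodule.subset_span (conv_positive ψ2 n2 s2)
  · exact Submodule.subset_span (conv_positive ψ3 n3 s3)
  · exact Submodule.subset_span (conv_positive ψ4 n4 s4)

lemma regular_of_commutes (T : E →L[ℂ] E)
    (hT : CommutesWithRightTranslations iota (T : E →ₗ[ℂ] E)) :
    Regular iota (T : E →ₗ[ℂ] E) := by
  have h : ∀ s p, iota (T (del s)) p = iota (T (del 0)) (p - s) := by
    intro s p
    have := hT (-s) (del 0) (del s) (fun q => by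
      rw [iota_del, iota_del]
      simp [← sub_eq_add_neg, sub_eq_zero]) p
    simpa [sub_eq_add_neg] using this
  rw [eq_conv T h]
  exact conv_regular _ (kernel_summable T h)

/-- **Negative answer to Q1.** On the discrete abelian group `ℤ × ℤ` there is a Banach function
space, invariant under translations, which carries bounded non-regular operators, but on which
every bounded operator commuting with the right translations is regular. -/
theorem result : ¬ AssertionFor (ℤ × ℤ) := by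
  intro h
  obtain ⟨T, hT, hc⟩ := h E iota isBFS leftInv rightInv ⟨T0, T0_not_regular⟩
  exact hT (regular_of_commutes T hc)

end Pool.Agent.Results.MP_3f33d0_an.MixedNorm
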